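import Pool.Agent.H4.FV.OddU

set_option autoImplicit false

/-!
# The group on the natural numbers of the standard algebra
-/

namespace Pool.Agent.H881.FV

open Pool.Agent.R620.VA
open Pool.Agent.R620.GG
open Pool.Agent.H4.FV.Odd
open scoped commutatorElement

section aux

variable {p : ℕ} {α G : Type} [Group α] [Group G]

theorem cl2_of (f : α ≃* G) (h : Cl2 p G) : Cl2 p α where
  odd := h.odd
  comm := fun x y z => by
    apply f.injective
    rw [map_commutatorElement, map_commutatorElement, h.comm, map_one]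
  pow := fun x => by
    apply f.injective
    rw [map_pow, h.pow, map_one]

end aux

theorem ev_refl (p : ℕ) {A : Type} [NonUnitalNonAssocRing A] [Module (ZMod p) A] (v : A) :
    EvA p v v := by
  refine ⟨fun _ => -1, fun x => ?_⟩
  have h : v + lcA p (fun _ : Fin 1 => v) (fun _ => (-1 : ZMod p)) = 0 := by
    rw [lcA, Fin.sum_univ_one, neg_smul, one_smul, add_neg_cancel]
  rw [h, zero_mul]

theorem infinite_SA (p : ℕ) [Fact p.Prime] (Γ : ℕ → ℕ → Prop) : Infinite (SA p Γ) := by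
  refine Infinite.of_injective (fun v : ℕ => (sv v : SA p Γ)) fun v w h => ?_
  have h1 : (Finsupp.single (Sum.inl (v, 0)) 1 : Bs Γ →₀ ZMod p) =
      Finsupp.single (Sum.inl (w, 0)) 1 := congrArg Prod.fst h
  have h2 := Finsupp.single_left_injective (one_ne_zero : (1 : ZMod p) ≠ 0) h1
  exact congrArg Prod.fst (Sum.inl.inj h2)

theorem countable_SA (p : ℕ) [Fact p.Prime] (Γ : ℕ → ℕ → Prop) : Countable (SA p Γ) := by
  have : Countable (Bs Γ →₀ ZMod p) := inferInstance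
  have : Countable ((Bs Γ × Bs Γ) →₀ ZMod p) := inferInstance
  have : Countable (((Bs Γ × Bs Γ) →₀ ZMod p) ⧸ Kr p Γ) :=
    (Submodule.mkQ_surjective (Kr p Γ)).countable
  exact inferInstanceAs (Countable ((Bs Γ →₀ ZMod p) × (((Bs Γ × Bs Γ) →₀ ZMod p) ⧸ Kr p Γ)))

theorem symm_mul {p : ℕ} [Fact p.Prime] {A B : Type} [NonUnitalNonAssocRing A]
    [Module (ZMod p) A] [NonUnitalNonAssocRing B] [Module (ZMod p) B] (e : A ≃ₗ[ZMod p] B)
    (he : ∀ x y : A, e (x * y) = e x * e y) (x y : B) : e.symm (x * y) = e.symm x * e.symm y := by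
  apply e.injective
  rw [he, LinearEquiv.apply_symm_apply, LinearEquiv.apply_symm_apply, LinearEquiv.apply_symm_apply]

theorem trans_mul {p : ℕ} [Fact p.Prime] {A B D : Type} [NonUnitalNonAssocRing A]
    [Module (ZMod p) A] [NonUnitalNonAssocRing B] [Module (ZMod p) B] [NonUnitalNonAssocRing D]
    [Module (ZMod p) D] (e : A ≃ₗ[ZMod p] B) (he : ∀ x y : A, e (x * y) = e x * e y)
    (e' : B ≃ₗ[ZMod p] D) (he' : ∀ x y : B, e' (x * y) = e' x * e' y) (x y : A) :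
    (e.trans e') (x * y) = (e.trans e') x * (e.trans e') y := by
  rw [LinearEquiv.trans_apply, LinearEquiv.trans_apply, LinearEquiv.trans_apply, he, he']

/-- the group on any set with the cardinality of the algebra -/
theorem ex_on (h1 : S_bridge) (h2 : S_trans) (p : ℕ) [Fact p.Prime] (hp2 : p ≠ 2)
    (Γ : ℕ → ℕ → Prop) (hA : FAA p (SA p Γ)) (h3 : ∀ v : ℕ, VtA p (sv v : SA p Γ))
    (h4 : ∀ v w : ℕ, v ≠ w → ¬ EvA p (sv v : SA p Γ) (sv w))
    (h5 : ∀ x : SA p Γ, VtA p x → ∃ v : ℕ, EvA p (sv v) x)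
    (h6 : ∀ v w : ℕ, AjA p (sv v : SA p Γ) (sv w) ↔ Γ v w) (α : Type) (e : α ≃ SA p Γ) :
    ∃ μ : α → α → α, FA p μ ∧ ∃ π : ℕ → α, (∀ v, Vt p μ (π v)) ∧
      (∀ v w, Ev p μ (π v) (π w) ↔ v = w) ∧ (∀ x, Vt p μ x → ∃ v, Ev p μ (π v) x) ∧
      ∀ u v, Aj p μ (π u) (π v) ↔ Γ u v := by
  have hodd : Odd p := (Fact.out : p.Prime).odd_of_ne_two hp2
  let f : α ≃ GA p (SA p Γ) alt2_SA := e
  let _ : Group α := f.group
  let φ : α ≃* GA p (SA p Γ) alt2_SA := f.mulEquiv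
  have hG : Cl2 p (GA p (SA p Γ) alt2_SA) := cl2_GA alt2_SA hodd
  have hα : Cl2 p α := cl2_of φ hG
  obtain ⟨E1, hE1⟩ := aiso_LG hα hG φ
  obtain ⟨E2, hE2⟩ := aiso_GA (p := p) (A := SA p Γ) alt2_SA hodd
  obtain ⟨E, hE⟩ : ∃ E : SA p Γ ≃ₗ[ZMod p] LG p α hα, ∀ x y, E (x * y) = E x * E y :=
    ⟨(E1.trans E2).symm, symm_mul (E1.trans E2) (trans_mul E1 hE1 E2 hE2)⟩
  obtain ⟨k1, k2, k3, k4⟩ := h2 p (SA p Γ) (LG p α hα) E hE hA
  obtain ⟨b1, b2, b3, b4, -, -⟩ := h1 p hp2 α hα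
  refine ⟨fun x y => x * y, b1.2 k1, fun v => E (sv v), fun v => (b2 _).2 ((k2 _).1 (h3 v)),
    fun v w => (b3 _ _).trans ((k3 _ _).symm.trans ⟨fun h => ?_, fun h => ?_⟩), fun x hx => ?_,
    fun u v => (b4 _ _).trans ((k4 _ _).symm.trans (h6 u v))⟩
  · by_contra hne
    exact h4 v w hne h
  · rw [h]
    exact ev_refl p _
  · obtain ⟨y, hy⟩ : ∃ y : SA p Γ, E y = x := ⟨E.symm x, E.apply_symm_apply x⟩
    have hx' : VtA p y := by
      refine (k2 y).2 ?_
      rw [hy]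
      exact (b2 x).1 hx
    obtain ⟨v, hv⟩ := h5 _ hx'
    refine ⟨v, (b3 _ _).2 ?_⟩
    have h7 := (k3 _ _).1 hv
    rw [hy] at h7
    exact h7

/-- the group on `ℕ` of the standard algebra -/
theorem ex (h1 : S_bridge) (h2 : S_trans) : S_ex := by
  intro p _ hp2 Γ hA h3 h4 h5 h6
  have := infinite_SA p Γ
  have := countable_SA p Γ
  obtain ⟨e⟩ : Nonempty (ℕ ≃ SA p Γ) := nonempty_equiv_of_countable
  exact ex_on h1 h2 p hp2 Γ hA h3 h4 h5 h6 ℕ e

end Pool.Agent.H881.FV
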